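import Mathlib

set_option autoImplicit false

/-!
# Treewidth
-/

namespace Pool.Agent.Lib.MP_711ea9_lc

/-- `G` has treewidth at most `k`: there are a finite tree `T` and, for every node `i` of `T`, a set
`bag i` of at most `k + 1` vertices of `G`, such that every vertex lies in some bag, the two ends of
every edge lie together in some bag, and for every vertex the nodes whose bags contain it induce a
connected subgraph of `T`. -/
def TreewidthLE {V : Type*} (G : SimpleGraph V) (k : ℕ) : Prop :=
  ∃ (m : ℕ) (T : SimpleGraph (Fin m)) (bag : Fin m → Finset V),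
    T.IsTree ∧ (∀ i, (bag i).card ≤ k + 1) ∧ (∀ v, ∃ i, v ∈ bag i) ∧
    (∀ u v, G.Adj u v → ∃ i, u ∈ bag i ∧ v ∈ bag i) ∧
    (∀ v, (T.induce {i | v ∈ bag i}).Connected)

end Pool.Agent.Lib.MP_711ea9_lc
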