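import Pool.Agent.Lib.MP_711ea9_lc.Burn
import Pool.Agent.Lib.MP_711ea9_lc.TW.Treewidth

set_option autoImplicit false

/-!
# Tree orders, cells, and linked pairs: definitions
-/

namespace Pool.Agent.Lib.MP_711ea9_lc

open Finset

section

variable {V : Type*} [Fintype V] [DecidableEq V]

/-- A rooted form of a tree decomposition whose nodes are the vertices: `par v` is the parent, the
bag of `v` is `insert v (up v)`. -/
structure TreeOrd (G : SimpleGraph V) (k : ℕ) where
  /-- the parent -/
  par : V → Option V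
  /-- the rest of the bag -/
  up : V → Finset V
  /-- the rank -/
  rk : V → ℕ
  rk_par : ∀ v p, par v = some p → rk p < rk v
  up_card : ∀ v, (up v).card ≤ k
  up_par : ∀ v, ∀ u ∈ up v, ∃ p, par v = some p ∧ (u = p ∨ u ∈ up p)
  adj : ∀ u v, G.Adj u v → u ∈ up v ∨ v ∈ up u

namespace TreeOrd

variable {G : SimpleGraph V} {k : ℕ} (τ : TreeOrd G k)

/-- The bag of `v`. -/
def bag (v : V) : Finset V := insert v (τ.up v)

/-- The union of the bags of the vertices in `X`. -/
def HH (X : Finset V) : Finset V := X.biUnion τ.bag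

/-- One step to the parent, allowed outside `X`. -/
def St (X : Finset V) (a b : V) : Prop := a ∉ X ∧ τ.par a = some b

/-- `v` is an ancestor of `u` (or `u`), and the vertices from `u` up to `v`, except `v`, do not lie in
`X`. -/
def Rc (X : Finset V) (u v : V) : Prop := Relation.ReflTransGen (τ.St X) u v

open scoped Classical in
/-- The cell of `v`. -/
noncomputable def cell (X : Finset V) (v : V) : Finset V := univ.filter (fun u => τ.Rc X u v)

/-- `x ∈ X` is visible from `v` from below. -/
def Vis (X : Finset V) (x v : V) : Prop := x ∈ X ∧ ∃ a, τ.par x = some a ∧ τ.Rc X a v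

/-- The rule defining the marked vertices. -/
def Good (B : Finset V) (r : ℕ) (X : Finset V) : Prop :=
  ∀ v, v ∈ X ↔ (v ∈ B ∨ r ≤ (τ.cell X v).card ∨
    ∃ x x', x ≠ x' ∧ τ.Vis X x v ∧ τ.Vis X x' v)

/-- `q` is the top of the component of `v` outside `X`. -/
def Tp (X : Finset V) (v q : V) : Prop :=
  τ.Rc X v q ∧ q ∉ X ∧ ∀ x, τ.par q = some x → x ∈ X

end TreeOrd

/-- `C` is a nonempty connected set of vertices. -/
def Conn (G : SimpleGraph V) (C : Finset V) : Prop := ∃ r ∈ C, ∀ x ∈ C, Rch G C r x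

/-- There are two vertices `z ≠ z'`, a connected set `C` which does not contain them, and `M`
pairwise disjoint connected subsets of `C`, each of which is adjacent to `z` and to `z'`. -/
def Linked (G : SimpleGraph V) (M : ℕ) : Prop :=
  ∃ (z z' : V) (C : Finset V) (D : Fin M → Finset V), z ≠ z' ∧ z ∉ C ∧ z' ∉ C ∧ Conn G C ∧
    (∀ i, D i ⊆ C) ∧ (∀ i, Conn G (D i)) ∧ (∀ i j, i ≠ j → Disjoint (D i) (D j)) ∧
    (∀ i, ∃ x ∈ D i, G.Adj x z) ∧ (∀ i, ∃ x ∈ D i, G.Adj x z')

end

end Pool.Agent.Lib.MP_711ea9_lc
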