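import Pool.Agent.Lib.MP_711ea9_lc.TW.Final

set_option autoImplicit false

/-!
# Graphs of bounded treewidth with small degrees
-/

namespace Pool.Agent.Lib.MP_711ea9_lc

theorem subexp_degree (k d : ℕ) : SubexpSolvable (fun n G => TreewidthLE G k ∧
    ∀ v, (G.neighborSet v).ncard ≤ d + (Nat.log 2 n) ^ d) := by
  obtain ⟨c, hc, h⟩ := cT_le k (d + 1)
  refine subexp_of _ c hc ?_
  rintro n G s ⟨htw, hdeg⟩ L hL hn S hS
  obtain ⟨τ⟩ := exists_treeOrd htw
  set M := d + 1 + (Nat.log 2 n) ^ d with hM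
  have hlog : 1 ≤ Nat.log 2 n := by
    have h1 : 2 ≤ n := by
      have h2 : 1 ≤ 2 ^ (c * L ^ 2) := Nat.one_le_two_pow
      calc 2 = 2 ^ 1 := rfl
        _ ≤ 2 ^ (2 ^ (c * L ^ 2)) := Nat.pow_le_pow_right (by norm_num) h2
        _ ≤ n := hn
    exact Nat.log_pos (by norm_num) h1
  have hMle : M ≤ (d + 1) + (Nat.log 2 n) ^ (d + 1) := by
    have h1 : (Nat.log 2 n) ^ d ≤ (Nat.log 2 n) ^ (d + 1) := Nat.pow_le_pow_right hlog (by omega)
    omega
  have hlink : ¬ Linked G M := by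
    intro hl
    obtain ⟨z, hz⟩ := linked_degree hl
    have := hdeg z
    omega
  have h1 := h L hL n M (by omega) hMle hn
  have h2 := short_linked (k := k) (M := M) (L := L) τ hL (by omega) hlink (by
    rw [Fintype.card_fin]; exact h1) hS
  rw [Fintype.card_fin] at h2
  exact h2

end Pool.Agent.Lib.MP_711ea9_lc
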