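import Pool.Agent.Lib.MP_711ea9_lc.Time

set_option autoImplicit false

/-!
# From short strategies to a program
-/

namespace Pool.Agent.Lib.MP_711ea9_lc

open Cmd

/-- Computes the binary logarithm of variable 22 in variable 2. -/
def pLogB : Cmd :=
  seq (set 3 (.var 22)) (seq (set 2 (.const 0))
    (loop (.var 22) (ite (.sub (.var 3) (.const 1))
      (seq (set 3 (.div (.var 3) (.const 2))) (set 2 (.add (.var 2) (.const 1)))) skip)))

/-- The preparation. -/
def pInitB (c : ℕ) : Cmd :=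
  seq pLog (seq (set 22 (.var 2)) (seq pLogB (seq (set 2 (.div (.var 2) (.const c))) (seq pSqrt
    (seq (set 2 (.var 4)) (seq pSqrt (seq pLen (seq pPow
      (seq (set 21 (.var 0)) (set 10 (.const 0)))))))))))

/-- The whole program. -/
def pMainB (c : ℕ) : Cmd :=
  seq (pInitB c) (seq (loop (.var 9) pBody) (set 0 (.var 21)))

lemma pLogB_spec (σ : Store) (m : ℕ) (hm : σ.var 22 = m) :
    (pLogB.exec σ).var 2 = Nat.log 2 m := by
  have h := loop_rule (e := .var 22) (c := ite (.sub (.var 3) (.const 1))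
      (seq (set 3 (.div (.var 3) (.const 2))) (set 2 (.add (.var 2) (.const 1)))) skip)
    (σ := (Cmd.set 2 (.const 0)).exec ((Cmd.set 3 (.var 22)).exec σ)) (N := m)
    (by simp [exec, Expr.eval, Function.update, hm])
    (fun i τ => τ.var 2 = min i (Nat.log 2 m) ∧ τ.var 3 = m / 2 ^ (τ.var 2))
    (by simp [exec, Expr.eval, Function.update, hm])
    (by
      intro i hi τ _ _ hI
      obtain ⟨h1, h2⟩ := hI
      have hm0 : m ≠ 0 := by omega
      by_cases hlt : i < Nat.log 2 m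
      · have h3 : τ.var 2 = i := by omega
        have h4 : 2 ≤ τ.var 3 := by
          rw [h2, h3, Nat.le_div_iff_mul_le (by positivity), ← pow_succ']
          exact (Nat.le_log_iff_pow_le (by norm_num) hm0).1 hlt
        rw [exec_ite_pos (by simp only [Expr.eval]; omega)]
        simp only [exec_seq, exec_set, Expr.eval, Function.update]
        norm_num
        constructor
        · omega
        · rw [h2, h3, Nat.div_div_eq_div_mul, pow_succ]
      · have h3 : τ.var 2 = Nat.log 2 m := by omega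
        have h4 : ¬ 2 ≤ τ.var 3 := by
          rw [h2, h3, Nat.le_div_iff_mul_le (by positivity), ← pow_succ']
          intro h5
          have := (Nat.le_log_iff_pow_le (by norm_num) hm0).2 h5
          omega
        rw [exec_ite_neg (by simp only [Expr.eval]; omega)]
        constructor
        · rw [exec_skip]; omega
        · exact h2)
  have h5 : Nat.log 2 m ≤ m := Nat.log_le_self 2 m
  have h6 := h.1
  simp only [pLogB, exec] at h6 ⊢
  omega

/-- The parameter `b`. -/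
def bB (c n : ℕ) : ℕ :=
  max 1 (Nat.sqrt (max 1 (Nat.sqrt (Nat.log 2 (Nat.log 2 n) / c))))

/-- The length of the codes. -/
def lenB (c n : ℕ) : ℕ := n / bB c n + bB c n * (n / (bB c n * bB c n) + 1)

lemma pInitB_spec (c : ℕ) (σ : Store) (n : ℕ) (hn : σ.var 0 = n) (hn0 : n ≠ 0) :
    ((pInitB c).exec σ).var 0 = n ∧ ((pInitB c).exec σ).var 1 = σ.var 1 ∧
    ((pInitB c).exec σ).var 4 = bB c n ∧ ((pInitB c).exec σ).var 8 = lenB c n ∧
    ((pInitB c).exec σ).var 9 = 3 ^ lenB c n ∧ ((pInitB c).exec σ).var 10 = 0 ∧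
    ((pInitB c).exec σ).var 21 = n ∧ ((pInitB c).exec σ).arr 0 = σ.arr 0 ∧
    (pInitB c).steps σ ≤ 2000 + Nat.size c + 500 * (n + lenB c n) := by
  set σ1 := pLog.exec σ with hσ1
  set τ1 := (Cmd.set 22 (.var 2)).exec σ1 with hτ1
  set τ2 := pLogB.exec τ1 with hτ2
  set τ3 := (Cmd.set 2 (.div (.var 2) (.const c))).exec τ2 with hτ3
  set τ4 := pSqrt.exec τ3 with hτ4
  set σ2 := (Cmd.set 2 (.var 4)).exec τ4 with hσ2
  set σ3 := pSqrt.exec σ2 with hσ3
  set σ4 := pLen.exec σ3 with hσ4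
  set σ5 := pPow.exec σ4 with hσ5
  have hfin : (pInitB c).exec σ = (Cmd.set 10 (.const 0)).exec ((Cmd.set 21 (.var 0)).exec σ5) := rfl
  have hst : (pInitB c).steps σ = pLog.steps σ + ((Cmd.set 22 (.var 2)).steps σ1 +
      (pLogB.steps τ1 + ((Cmd.set 2 (.div (.var 2) (.const c))).steps τ2 + (pSqrt.steps τ3 +
      ((Cmd.set 2 (.var 4)).steps τ4 +
      (pSqrt.steps σ2 + (pLen.steps σ3 + (pPow.steps σ4 + ((Cmd.set 21 (.var 0)).steps σ5 +
        (Cmd.set 10 (.const 0)).steps ((Cmd.set 21 (.var 0)).exec σ5)))))))))) := rfl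
  have h1 : σ1.var 2 = Nat.log 2 n := pLog_spec σ n hn hn0
  have k1 : τ1.var 22 = Nat.log 2 n := by
    rw [hτ1]; simp [exec, Expr.eval, h1]
  have k2 : τ2.var 2 = Nat.log 2 (Nat.log 2 n) := pLogB_spec τ1 _ k1
  have k3 : τ3.var 2 = Nat.log 2 (Nat.log 2 n) / c := by
    rw [hτ3]; simp [exec, Expr.eval, k2]
  have k4 : τ4.var 4 = max 1 (Nat.sqrt (Nat.log 2 (Nat.log 2 n) / c)) := by
    have := (pSqrt_spec τ3).1
    rw [k3] at this
    exact this
  have h2 : σ2.var 2 = max 1 (Nat.sqrt (Nat.log 2 (Nat.log 2 n) / c)) := by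
    rw [hσ2]; simp [exec, Expr.eval, k4]
  have h3 := pSqrt_spec σ2
  rw [h2] at h3
  have h4 := pLen_spec σ3
  have h5 := pPow_spec σ4
  have e1 : σ1.var 0 = n := by rw [hσ1, frame_var _ _ _ rfl, hn]
  have e1' : τ4.var 0 = n := by
    rw [hτ4, frame_var _ _ _ rfl, hτ3, frame_var _ _ _ rfl, hτ2, frame_var _ _ _ rfl, hτ1,
      frame_var _ _ _ rfl, e1]
  have e2 : σ2.var 0 = n := by rw [hσ2, frame_var _ _ _ rfl, e1']
  have e3 : σ3.var 0 = n := by rw [hσ3, frame_var _ _ _ rfl, e2]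
  have e4 : σ4.var 0 = n := by rw [hσ4, frame_var _ _ _ rfl, e3]
  have e5 : σ5.var 0 = n := by rw [hσ5, frame_var _ _ _ rfl, e4]
  have f4 : σ4.var 4 = bB c n := by rw [hσ4, frame_var _ _ _ rfl]; exact h3.1
  have f5 : σ5.var 4 = bB c n := by rw [hσ5, frame_var _ _ _ rfl]; exact f4
  have g4 : σ4.var 8 = lenB c n := by
    rw [hσ4, h4, e3, h3.2, h3.1]; rfl
  have g5 : σ5.var 8 = lenB c n := by rw [hσ5, frame_var _ _ _ rfl]; exact g4
  have k5 : σ5.var 9 = 3 ^ lenB c n := by rw [hσ5, h5, g4]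
  have a5 : σ5.arr 0 = σ.arr 0 := by
    rw [hσ5, frame_arr _ _ _ rfl, hσ4, frame_arr _ _ _ rfl, hσ3, frame_arr _ _ _ rfl, hσ2,
      frame_arr _ _ _ rfl, hτ4, frame_arr _ _ _ rfl, hτ3, frame_arr _ _ _ rfl, hτ2,
      frame_arr _ _ _ rfl, hτ1, frame_arr _ _ _ rfl, hσ1, frame_arr _ _ _ rfl]
  have v5 : σ5.var 1 = σ.var 1 := by
    rw [hσ5, frame_var _ _ _ rfl, hσ4, frame_var _ _ _ rfl, hσ3, frame_var _ _ _ rfl, hσ2,
      frame_var _ _ _ rfl, hτ4, frame_var _ _ _ rfl, hτ3, frame_var _ _ _ rfl, hτ2,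
      frame_var _ _ _ rfl, hτ1, frame_var _ _ _ rfl, hσ1, frame_var _ _ _ rfl]
  have hstep : (pInitB c).steps σ ≤ 2000 + Nat.size c + 500 * (n + lenB c n) := by
    have hX : Nat.log 2 n ≤ n := Nat.log_le_self 2 n
    have hX2 : Nat.log 2 (Nat.log 2 n) ≤ n := (Nat.log_le_self 2 _).trans hX
    have hΛ : Nat.log 2 (Nat.log 2 n) / c ≤ n := (Nat.div_le_self _ _).trans hX2
    have hw : max 1 (Nat.sqrt (Nat.log 2 (Nat.log 2 n) / c)) ≤ n := by
      have := (Nat.sqrt_le_self (Nat.log 2 (Nat.log 2 n) / c)).trans hΛ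
      omega
    have hb : σ3.var 4 ≤ n := by
      rw [h3.1]
      have := (Nat.sqrt_le_self (max 1 (Nat.sqrt (Nat.log 2 (Nat.log 2 n) / c)))).trans hw
      omega
    have s1 := steps_le (fun _ => n) (fun x => x = 0) pLog σ (by simp [pLog, Cmd.lp])
      (by rintro x rfl; rfl) (by rintro x rfl; exact hn)
    have s1' := steps_le (fun _ => Nat.log 2 n) (fun x => x = 22) pLogB τ1
      (by simp [pLogB, Cmd.lp]) (by rintro x rfl; rfl) (by rintro x rfl; exact k1)
    have s1'' := steps_le (fun _ => Nat.log 2 (Nat.log 2 n) / c) (fun x => x = 2) pSqrt τ3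
      (by simp [pSqrt, Cmd.lp]) (by rintro x rfl; rfl) (by rintro x rfl; exact k3)
    have s2 := steps_le (fun _ => max 1 (Nat.sqrt (Nat.log 2 (Nat.log 2 n) / c)))
      (fun x => x = 2) pSqrt σ2 (by simp [pSqrt, Cmd.lp])
      (by rintro x rfl; rfl) (by rintro x rfl; exact h2)
    have s3 := steps_le (fun _ => σ3.var 4) (fun x => x = 4) pLen σ3 (by simp [pLen, Cmd.lp])
      (by rintro x rfl; rfl) (by rintro x rfl; rfl)
    have s4 := steps_le (fun _ => lenB c n) (fun x => x = 8) pPow σ4 (by simp [pPow, Cmd.lp])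
      (by rintro x rfl; rfl) (by rintro x rfl; exact g4)
    have t1 := bd_pLog (fun _ => n)
    have t1' : pLogB.bd (fun _ => Nat.log 2 n) ≤ 100 + 100 * Nat.log 2 n := by
      simp only [pLogB, bd_skip, bd_set, bd_seq, bd_ite, bd_loop, Expr.size, Nat.size_zero,
        Nat.size_one, size2']
      omega
    have t1'' := bd_pSqrt (fun _ => Nat.log 2 (Nat.log 2 n) / c)
    have t2 := bd_pSqrt (fun _ => max 1 (Nat.sqrt (Nat.log 2 (Nat.log 2 n) / c)))
    have t3 := bd_pLen (fun _ => σ3.var 4)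
    have t4 := bd_pPow (fun _ => lenB c n)
    have u0 : (Cmd.set 22 (.var 2)).steps σ1 = 2 := rfl
    have u0' : (Cmd.set 2 (.var 4)).steps τ4 = 2 := rfl
    have u1 : (Cmd.set 2 (.div (.var 2) (.const c))).steps τ2 = 1 + (1 + (1 + Nat.size c) + 1) := rfl
    have u2 : (Cmd.set 21 (.var 0)).steps σ5 = 2 := rfl
    have u3 : (Cmd.set 10 (.const 0)).steps ((Cmd.set 21 (.var 0)).exec σ5) = 2 := by
      simp [steps, Expr.size]
    rw [hst, u0, u0', u1, u2, u3]
    generalize pLog.steps σ = x1 at *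
    generalize pLogB.steps τ1 = x2 at *
    generalize pSqrt.steps τ3 = x3 at *
    generalize pSqrt.steps σ2 = x4 at *
    generalize pLen.steps σ3 = x5 at *
    generalize pPow.steps σ4 = x6 at *
    clear_value σ1 τ1 τ2 τ3 τ4 σ2 σ3 σ4 σ5
    generalize max 1 (Nat.sqrt (Nat.log 2 (Nat.log 2 n) / c)) = w at *
    generalize Nat.log 2 (Nat.log 2 n) / c = w' at *
    generalize Nat.log 2 n = w'' at *
    generalize lenB c n = ln at *
    omega
  refine ⟨?_, ?_, ?_, ?_, ?_, ?_, ?_, ?_, hstep⟩ <;> rw [hfin] <;>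
    simp only [exec, Expr.eval, Function.update] <;> norm_num
  · exact e5
  · exact v5
  · exact f5
  · exact g5
  · exact k5
  · exact e5
  · exact a5

section

variable {n : ℕ}

lemma pMainB_spec (c : ℕ) (G : SimpleGraph (Fin n)) (s : Fin n) :
    (∀ x < 3 ^ lenB c n, Feas G s (codeSet n (bB c n) (lenB c n) x) →
      ((pMainB c).exec (input G s)).var 0 ≤
        (fireF G s (codeSet n (bB c n) (lenB c n) x) n).card) ∧
    (((pMainB c).exec (input G s)).var 0 = n ∨ ∃ S, Feas G s S ∧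
      ((pMainB c).exec (input G s)).var 0 = (fireF G s S n).card) := by
  have hn0 : n ≠ 0 := by
    rintro rfl
    exact s.elim0
  set σ := input G s with hσ
  set b := bB c n with hb
  set len := lenB c n with hlen
  set σ1 := (pInitB c).exec σ with hσ1
  obtain ⟨i0, i1, i4, i8, i9, i10, i21, ia, -⟩ := pInitB_spec c σ n (by simp [hσ, input]) hn0
  rw [← hσ1] at i0 i1 i4 i8 i9 i10 i21 ia
  have hA := adjOK_input (G := G) (s := s)
  rw [← hσ] at hA
  have h := loop_rule (e := .var 9) (c := pBody) (σ := σ1) (N := 3 ^ len)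
    (by simp [Expr.eval, i9, hlen])
    (fun i τ => τ.var 10 = i ∧ (∀ x < i, Feas G s (codeSet n b len x) →
      τ.var 21 ≤ (fireF G s (codeSet n b len x) n).card) ∧
      (τ.var 21 = n ∨ ∃ S, Feas G s S ∧ τ.var 21 = (fireF G s S n).card))
    (by simp [i10, i21])
    (by
      intro i hi τ hvar harr hI
      obtain ⟨h10, h1, h2⟩ := hI
      have t0 : τ.var 0 = n := by rw [hvar 0 rfl, i0]
      have t1 : τ.var 1 = s := by rw [hvar 1 rfl, i1]; simp [hσ, input]
      have t4 : τ.var 4 = b := by rw [hvar 4 rfl, i4]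
      have t8 : τ.var 8 = len := by rw [hvar 8 rfl, i8]
      have tA : AdjOK G τ := by
        intro v u; rw [harr 0 rfl, ia]; exact hA v u
      obtain ⟨q1, q2, q3, q4⟩ := pBody_spec τ b len i t0 t1 t4 t8 h10 tA
      refine ⟨q1, ?_, ?_⟩
      · intro x hx hF
        rcases Nat.lt_or_ge x i with hxi | hxi
        · exact q3.trans (h1 x hxi hF)
        · have : x = i := by omega
          subst this
          exact q2 hF
      · rcases q4 with q4 | ⟨q4, q5⟩
        · rw [q4]; exact h2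
        · exact Or.inr ⟨_, q4, q5⟩)
  have hfin : ((pMainB c).exec σ).var 0 = ((loop (.var 9) pBody).exec σ1).var 21 := by
    have : (pMainB c).exec σ = (Cmd.set 0 (.var 21)).exec ((loop (.var 9) pBody).exec σ1) := rfl
    rw [this, exec_set]; simp [Expr.eval]
  rw [hfin]
  exact h.2

lemma bB_pos (c n : ℕ) : 1 ≤ bB c n := le_max_left _ _

lemma bB_cases (c n : ℕ) (hn0 : n ≠ 0) : bB c n = 1 ∨
    2 ^ (2 ^ (c * (bB c n * bB c n) ^ 2)) ≤ n := by
  by_cases hbb : bB c n = 1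
  · exact Or.inl hbb
  right
  set b := bB c n with hb
  have hb1 : 1 ≤ b := bB_pos c n
  set w := max 1 (Nat.sqrt (Nat.log 2 (Nat.log 2 n) / c)) with hw
  have hbw : b = max 1 (Nat.sqrt w) := rfl
  have hb2 : b = Nat.sqrt w := by omega
  have h1 : b * b ≤ w := by rw [hb2]; exact Nat.sqrt_le _
  have h2 : 2 ≤ b := by omega
  have h3 : 4 ≤ w := by
    have : 2 * 2 ≤ b * b := Nat.mul_le_mul h2 h2
    omega
  have h4 : w = Nat.sqrt (Nat.log 2 (Nat.log 2 n) / c) := by omega
  have h5 : w * w ≤ Nat.log 2 (Nat.log 2 n) / c := by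
    rw [h4]; exact Nat.sqrt_le _
  have h6 : (b * b) ^ 2 ≤ Nat.log 2 (Nat.log 2 n) / c := by
    refine le_trans ?_ h5
    rw [pow_two]
    exact Nat.mul_le_mul h1 h1
  have h7 : c * (b * b) ^ 2 ≤ Nat.log 2 (Nat.log 2 n) :=
    (Nat.mul_le_mul_left _ h6).trans (Nat.mul_div_le _ _)
  have h8 : Nat.log 2 n ≠ 0 := by
    intro h
    rw [h] at h5
    simp at h5
    omega
  calc 2 ^ (2 ^ (c * (b * b) ^ 2)) ≤ 2 ^ (2 ^ (Nat.log 2 (Nat.log 2 n))) :=
        Nat.pow_le_pow_right (by norm_num) (Nat.pow_le_pow_right (by norm_num) h7)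
    _ ≤ 2 ^ (Nat.log 2 n) :=
        Nat.pow_le_pow_right (by norm_num) (Nat.pow_log_le_self 2 h8)
    _ ≤ n := Nat.pow_log_le_self 2 hn0

theorem correctB (C : ∀ n : ℕ, SimpleGraph (Fin n) → Prop) (c : ℕ)
    (h : ∀ (n : ℕ) (G : SimpleGraph (Fin n)) (s : Fin n), C n G → ∀ L, 1 ≤ L →
      2 ^ (2 ^ (c * L ^ 2)) ≤ n → ∀ S, Feas G s S → ∃ S', Feas G s S' ∧
        (fireF G s S' n).card ≤ (fireF G s S n).card ∧ S'.card ≤ n / L + 1)
    (G : SimpleGraph (Fin n)) (s : Fin n) (hC : C n G) (k : ℕ) :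
    Firefighter G s k ↔ ((pMainB c).exec (input G s)).var 0 ≤ k := by
  have hn0 : n ≠ 0 := by
    rintro rfl
    exact s.elim0
  obtain ⟨h1, h2⟩ := pMainB_spec c G s
  set b := bB c n with hb
  set len := lenB c n with hlen
  have hb1 : 1 ≤ b := bB_pos c n
  rw [firefighter_iff, Fintype.card_fin]
  constructor
  · rintro ⟨S, hS, hSk⟩
    -- a small set of guards
    obtain ⟨S', hS', h3, h4⟩ : ∃ S' : Finset (Fin n), Feas G s S' ∧
        (fireF G s S' n).card ≤ (fireF G s S n).card ∧ S'.card ≤ n / (b * b) + 1 := by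
      rcases bB_cases c n hn0 with hbb | hbb
      · refine ⟨S, hS, le_rfl, ?_⟩
        rw [hb, hbb]
        have := Finset.card_le_univ S
        rw [Fintype.card_fin] at this
        simp only [Nat.mul_one, Nat.div_one]
        omega
      · have hL : 1 ≤ b * b := Nat.one_le_iff_ne_zero.2 (by positivity)
        exact h n G s hC (b * b) hL hbb S hS
    obtain ⟨x, hx, h5⟩ := dec_complete b n hb1 len 0 (S'.map Fin.valEmbedding) (by
      intro v hv
      rw [Finset.mem_map] at hv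
      obtain ⟨u, _, rfl⟩ := hv
      exact ⟨Nat.zero_le _, u.2⟩) (by
      rw [Finset.card_map, Nat.sub_zero]
      have e1 : len = n / b + b * (n / (b * b) + 1) := rfl
      rw [e1]
      have e2 : S'.card * b ≤ b * (n / (b * b) + 1) := by
        rw [Nat.mul_comm]; exact Nat.mul_le_mul_left _ h4
      exact Nat.add_le_add_left e2 _)
    have hcode : codeSet n b len x = S' := by
      ext v
      rw [codeSet, Finset.mem_filter, h5, Finset.mem_map]
      constructor
      · rintro ⟨_, u, hu, huv⟩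
        have : u = v := Fin.ext huv
        rwa [← this]
      · intro hv
        exact ⟨Finset.mem_univ _, v, hv, rfl⟩
    have h6 := h1 x hx (by rw [hcode]; exact hS')
    rw [hcode] at h6
    omega
  · intro hk
    rcases h2 with h2 | ⟨S, hS, h2⟩
    · refine ⟨∅, feas_empty G s, ?_⟩
      have := Finset.card_le_univ (fireF G s ∅ n)
      rw [Fintype.card_fin] at this
      omega
    · exact ⟨S, hS, by omega⟩

end

lemma steps_pMainB (c n : ℕ) (σ : Store) (hn : σ.var 0 = n) (hn0 : n ≠ 0) :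
    (pMainB c).steps σ ≤ (4000 + Nat.size c) * ((n + lenB c n + 1) ^ 3 * 3 ^ lenB c n) := by
  set σ1 := (pInitB c).exec σ with hσ1
  have hst : (pMainB c).steps σ = (pInitB c).steps σ + ((loop (.var 9) pBody).steps σ1 + 2) := rfl
  obtain ⟨i0, i1, i4, i8, i9, i10, i21, ia, s2⟩ := pInitB_spec c σ n hn hn0
  rw [← hσ1] at i0 i8 i9
  set ρ : ℕ → ℕ := fun x => if x = 0 then n else if x = 8 then lenB c n else 3 ^ lenB c n
    with hρ
  have s1 := steps_le ρ (fun x => x = 9 ∨ x = 0 ∨ x = 8) (loop (.var 9) pBody) σ1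
    (by simp [pBody, pClear, pDecode, pDigit, pCheck, pRound, pHeat, pHeat1, pHeat2, pSpread,
      pCount, Cmd.lp])
    (by rintro x (rfl | rfl | rfl) <;> rfl)
    (by rintro x (rfl | rfl | rfl) <;> simp [hρ, i0, i8, i9])
  have s3 := bd_pBody ρ
  rw [bd_loop] at s1
  have r0 : ρ 0 = n := by simp [hρ]
  have r8 : ρ 8 = lenB c n := by simp [hρ]
  have r9 : ρ 9 = 3 ^ lenB c n := by simp [hρ]
  rw [r0, r8] at s3
  rw [r9] at s1
  rw [hst]
  set Z := n + lenB c n + 1 with hZ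
  set P := 3 ^ lenB c n with hP
  have hP1 : 1 ≤ P := Nat.one_le_iff_ne_zero.2 (by positivity)
  have hZ1 : 1 ≤ Z := by omega
  have hZ3 : Z ≤ Z ^ 3 := Nat.le_self_pow (by norm_num) Z
  have h1 : P * (1 + pBody.bd ρ) ≤ P * (1000 * Z ^ 3) := Nat.mul_le_mul_left _ s3
  have h2 : Z ^ 3 ≤ Z ^ 3 * P := Nat.le_mul_of_pos_right _ hP1
  have h3 : P * (1000 * Z ^ 3) = 1000 * (Z ^ 3 * P) := by ring
  have h4 : 1 ≤ Z ^ 3 * P := (hZ1.trans hZ3).trans h2
  have h5 : Nat.size c ≤ Nat.size c * (Z ^ 3 * P) := Nat.le_mul_of_pos_right _ h4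
  have h6 : (4000 + Nat.size c) * (Z ^ 3 * P) = 4000 * (Z ^ 3 * P) + Nat.size c * (Z ^ 3 * P) := by
    ring
  rw [h6]
  have h7 : n + lenB c n ≤ Z ^ 3 * P := by omega
  omega

/-- The exponent of the running time. -/
def expoB (c n : ℕ) : ℕ :=
  2 * (4000 + Nat.size c + 3 * Nat.size (n + lenB c n + 1) + 2 * lenB c n) + 2

lemma costB_le {n : ℕ} (c : ℕ) (G : SimpleGraph (Fin n)) (s : Fin n) :
    (pMainB c).cost (input G s) ≤ 2 ^ expoB c n := by
  have hn0 : n ≠ 0 := by
    rintro rfl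
    exact s.elim0
  have h1 := ((pMainB c).bound (bdd_input G s)).2
  have h2 := steps_pMainB c n (input G s) (by simp [input]) hn0
  set K := (pMainB c).steps (input G s) with hK
  set Z := n + lenB c n + 1 with hZ
  set e := 4000 + Nat.size c + 3 * Nat.size Z + 2 * lenB c n with he
  have h3 : K ≤ 2 ^ e := by
    refine h2.trans ?_
    have a1 : 4000 + Nat.size c ≤ 2 ^ (4000 + Nat.size c) := Nat.lt_two_pow_self.le
    have a2 : Z ^ 3 ≤ 2 ^ (3 * Nat.size Z) := by
      calc Z ^ 3 ≤ (2 ^ Nat.size Z) ^ 3 := Nat.pow_le_pow_left (Nat.lt_size_self Z).le 3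
        _ = _ := by rw [← pow_mul, Nat.mul_comm]
    have a3 : 3 ^ lenB c n ≤ 2 ^ (2 * lenB c n) := by
      calc 3 ^ lenB c n ≤ 4 ^ lenB c n := Nat.pow_le_pow_left (by norm_num) _
        _ = (2 ^ 2) ^ lenB c n := by norm_num
        _ = _ := by rw [← pow_mul]
    calc (4000 + Nat.size c) * (Z ^ 3 * 3 ^ lenB c n)
        ≤ 2 ^ (4000 + Nat.size c) * (2 ^ (3 * Nat.size Z) * 2 ^ (2 * lenB c n)) :=
          Nat.mul_le_mul a1 (Nat.mul_le_mul a2 a3)
      _ = 2 ^ e := by
          rw [← pow_add, ← pow_add, he]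
          congr 1
          omega
  have h4 : n + 2 ≤ 2 ^ e + 2 ^ e := by
    have b1 : Z < 2 ^ Nat.size Z := Nat.lt_size_self Z
    have b2 : 2 ^ Nat.size Z ≤ 2 ^ e := Nat.pow_le_pow_right (by norm_num) (by omega)
    omega
  have h5 : expoB c n = e + (e + 2) := by rw [expoB, he, hZ]; ring
  clear_value e
  calc (pMainB c).cost (input G s) ≤ K * (n + 1 + K + 1) := h1
    _ ≤ 2 ^ e * (2 ^ e + 2 ^ e + 2 ^ e + 2 ^ e) := by
        apply Nat.mul_le_mul h3
        omega
    _ = 2 ^ expoB c n := by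
        rw [h5, pow_add, pow_add]; ring

lemma bB_sq_le (c n : ℕ) (hn : 1 ≤ n) : bB c n * bB c n ≤ n := by
  rcases bB_cases c n (by omega) with h | h
  · rw [h]; omega
  · by_cases hc : c = 0
    · subst hc
      have h1 : bB 0 n = 1 := by simp [bB]
      rw [h1]; omega
    · set m := bB c n * bB c n with hm
      have h1 : 1 ≤ m := Nat.one_le_iff_ne_zero.2 (by
        have := bB_pos c n
        rw [hm]; positivity)
      calc m ≤ m ^ 2 := Nat.le_self_pow (by norm_num) m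
        _ ≤ c * m ^ 2 := Nat.le_mul_of_pos_left _ (by omega)
        _ ≤ 2 ^ (c * m ^ 2) := Nat.lt_two_pow_self.le
        _ ≤ 2 ^ (2 ^ (c * m ^ 2)) := Nat.lt_two_pow_self.le
        _ ≤ n := h

lemma bB_mono (c : ℕ) : Monotone (bB c) := by
  intro m n h
  unfold bB
  apply max_le_max le_rfl
  apply Nat.sqrt_le_sqrt
  apply max_le_max le_rfl
  apply Nat.sqrt_le_sqrt
  apply Nat.div_le_div_right
  exact Nat.log_mono_right (Nat.log_mono_right h)

lemma bB_tendsto (c : ℕ) (hc : 1 ≤ c) :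
    Filter.Tendsto (fun n => bB c n) Filter.atTop Filter.atTop := by
  apply Filter.tendsto_atTop_atTop_of_monotone (bB_mono c)
  intro B
  refine ⟨2 ^ (2 ^ (c * ((B * B) * (B * B)))), ?_⟩
  unfold bB
  rw [Nat.log_pow (by norm_num), Nat.log_pow (by norm_num), Nat.mul_div_cancel_left _ hc,
    Nat.sqrt_eq]
  have h1 : Nat.sqrt (B * B) ≤ Nat.sqrt (max 1 (B * B)) := Nat.sqrt_le_sqrt (le_max_right _ _)
  rw [Nat.sqrt_eq] at h1
  exact h1.trans (le_max_right _ _)

lemma lenB_le (c n : ℕ) (hn : 1 ≤ n) : (lenB c n : ℝ) / n ≤ 3 / bB c n := by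
  have hb : 1 ≤ bB c n := bB_pos c n
  have hbn := bB_sq_le c n hn
  unfold lenB
  set b := bB c n with hb'
  have hbr : (0 : ℝ) < b := by exact_mod_cast hb
  have hnr : (0 : ℝ) < n := by exact_mod_cast hn
  rw [div_le_div_iff₀ hnr hbr]
  push_cast
  have h1 : ((n / b : ℕ) : ℝ) ≤ (n : ℝ) / b := Nat.cast_div_le
  have h2 : ((n / (b * b) : ℕ) : ℝ) ≤ (n : ℝ) / (b * b) := by
    have := @Nat.cast_div_le ℝ _ _ _ n (b * b)
    push_cast at this
    exact this
  have h3 : (b : ℝ) * b ≤ n := by exact_mod_cast hbn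
  have h4 : ((n / b : ℕ) : ℝ) * b ≤ n := by
    calc ((n / b : ℕ) : ℝ) * b ≤ (n : ℝ) / b * b := by gcongr
      _ = n := by field_simp
  have h5 : ((n / (b * b) : ℕ) : ℝ) * (b * b) ≤ n := by
    calc ((n / (b * b) : ℕ) : ℝ) * (b * b) ≤ (n : ℝ) / (b * b) * (b * b) := by gcongr
      _ = n := by field_simp
  nlinarith

lemma lenB_le' (c n : ℕ) (hn : 1 ≤ n) : lenB c n ≤ 3 * n := by
  have h := lenB_le c n hn
  have hb : 1 ≤ bB c n := bB_pos c n
  have hbr : (1 : ℝ) ≤ bB c n := by exact_mod_cast hb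
  have hnr : (0 : ℝ) < n := by exact_mod_cast hn
  have h2 : (lenB c n : ℝ) / n ≤ 3 := by
    refine h.trans ?_
    rw [div_le_iff₀ (by linarith)]
    linarith
  rw [div_le_iff₀ hnr] at h2
  exact_mod_cast h2

lemma sizeB_le (c n : ℕ) (hn : 1 ≤ n) : Nat.size (n + lenB c n + 1) ≤ Nat.log 2 n + 4 := by
  rw [Nat.size_le]
  have h1 := lenB_le' c n hn
  have h2 : n < 2 ^ (Nat.log 2 n + 1) := Nat.lt_pow_succ_log_self (by norm_num) n
  have h3 : 2 ^ (Nat.log 2 n + 4) = 8 * 2 ^ (Nat.log 2 n + 1) := by ring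
  omega

lemma expoB_tendsto (c : ℕ) (hc : 1 ≤ c) :
    Filter.Tendsto (fun n : ℕ => (expoB c n : ℝ) / (n : ℝ)) Filter.atTop (nhds 0) := by
  set A : ℝ := 2 * (4000 + Nat.size c + 12) + 2 with hA
  have hup : ∀ n : ℕ, 1 ≤ n → (expoB c n : ℝ) / (n : ℝ) ≤
      A / n + 6 / Real.log 2 * (Real.log n / n) + 12 / (bB c n : ℝ) := by
    intro n hn
    have hnr : (0 : ℝ) < n := by exact_mod_cast hn
    have h1 := lenB_le c n hn
    have h2 : (Nat.size (n + lenB c n + 1) : ℝ) ≤ Nat.log 2 n + 4 := by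
      exact_mod_cast sizeB_le c n hn
    have h3 : (Nat.log 2 n : ℝ) ≤ Real.log n / Real.log 2 := by
      have := Real.natLog_le_logb n 2
      rw [Real.logb] at this
      exact_mod_cast this
    have h4 : (expoB c n : ℝ) = 2 * (4000 + Nat.size c + 3 * Nat.size (n + lenB c n + 1) +
        2 * lenB c n) + 2 := by
      unfold expoB; push_cast; ring
    rw [h4]
    have h5 : (2 * (4000 + (Nat.size c : ℝ) + 3 * Nat.size (n + lenB c n + 1) +
        2 * lenB c n) + 2) / n ≤ (A + 6 * (Real.log n / Real.log 2) + 4 * lenB c n) / n := by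
      apply div_le_div_of_nonneg_right _ hnr.le
      rw [hA]
      linarith
    refine h5.trans ?_
    have h6 : (A + 6 * (Real.log n / Real.log 2) + 4 * lenB c n) / n =
        A / n + 6 / Real.log 2 * (Real.log n / n) + 4 * ((lenB c n : ℝ) / n) := by
      ring
    rw [h6]
    have h7 : 4 * ((lenB c n : ℝ) / n) ≤ 4 * (3 / bB c n) := by gcongr
    have h8 : 4 * (3 / (bB c n : ℝ)) = 12 / (bB c n : ℝ) := by ring
    linarith
  have l1 : Filter.Tendsto (fun n : ℕ => A / (n : ℝ)) Filter.atTop (nhds 0) :=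
    tendsto_const_div_atTop_nhds_zero_nat A
  have l2 : Filter.Tendsto (fun n : ℕ => 6 / Real.log 2 * (Real.log n / n)) Filter.atTop
      (nhds 0) := by
    have h := Real.tendsto_pow_log_div_mul_add_atTop 1 0 1 one_ne_zero
    have h' := (h.comp tendsto_natCast_atTop_atTop).const_mul (6 / Real.log 2)
    simpa using h'
  have l3 : Filter.Tendsto (fun n : ℕ => 12 / (bB c n : ℝ)) Filter.atTop (nhds 0) :=
    (tendsto_const_div_atTop_nhds_zero_nat 12).comp (bB_tendsto c hc)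
  have l : Filter.Tendsto (fun n : ℕ => A / (n : ℝ) + 6 / Real.log 2 * (Real.log n / n) +
      12 / (bB c n : ℝ)) Filter.atTop (nhds 0) := by
    have := (l1.add l2).add l3
    simpa using this
  refine squeeze_zero' ?_ ?_ l
  · exact Filter.Eventually.of_forall (fun n => by positivity)
  · filter_upwards [Filter.eventually_ge_atTop 1] with n hn using hup n hn

/-- If every strategy can be replaced by one with at most `n / L + 1` guards which is as good, whenever
`2 ^ (2 ^ (c L ^ 2)) ≤ n`, then the class is solvable in time `2 ^ o(n)`. -/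
theorem subexp_of (C : ∀ n : ℕ, SimpleGraph (Fin n) → Prop) (c : ℕ) (hc : 1 ≤ c)
    (h : ∀ (n : ℕ) (G : SimpleGraph (Fin n)) (s : Fin n), C n G → ∀ L, 1 ≤ L →
      2 ^ (2 ^ (c * L ^ 2)) ≤ n → ∀ S, Feas G s S → ∃ S', Feas G s S' ∧
        (fireF G s S' n).card ≤ (fireF G s S n).card ∧ S'.card ≤ n / L + 1) :
    SubexpSolvable C := by
  refine ⟨pMainB c, expoB c, expoB_tendsto c hc, ?_⟩
  intro n G s hC
  exact ⟨costB_le c G s, correctB C c h G s hC⟩

end Pool.Agent.Lib.MP_711ea9_lc
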