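import Pool.Agent.Lib.MP_711ea9_lc.Mg.G011
import Pool.Agent.Lib.MP_711ea9_lc.Mg.G010
import Pool.Agent.Lib.MP_711ea9_lc.TW.ProgB

set_option autoImplicit false

/-!
# The main theorems
-/

namespace Pool.Agent.Lib.MP_711ea9_lc

theorem subexp_linked (k d : ℕ) : SubexpSolvable (fun n G => TreewidthLE G k ∧
    ∃ M, 1 ≤ M ∧ M ≤ d + (Nat.log 2 n) ^ d ∧ ¬ Linked G M) := by
  obtain ⟨c, hc, h⟩ := cT_le k d
  refine subexp_of _ c hc ?_
  rintro n G s ⟨htw, M, hM1, hM2, hM3⟩ L hL hn S hS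
  obtain ⟨τ⟩ := exists_treeOrd htw
  have h1 := h L hL n M hM1 hM2 hn
  have h2 := short_linked (k := k) (M := M) (L := L) τ hL hM1 hM3 (by
    rw [Fintype.card_fin]; exact h1) hS
  rw [Fintype.card_fin] at h2
  exact h2

theorem subexp_treewidth_two : SubexpSolvable (fun _ G => TreewidthLE G 2) := by
  obtain ⟨p, f, h1, h2⟩ := subexp_linked 2 3
  refine ⟨p, f, h1, fun n G s hG => h2 n G s ⟨hG, 3, by norm_num, by omega, ?_⟩⟩
  obtain ⟨τ⟩ := exists_treeOrd hG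
  exact not_linked_three τ

end Pool.Agent.Lib.MP_711ea9_lc
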